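import Mathlib
import Pool.Agent.H26.NullFinite

set_option autoImplicit false

open Set Filter Topology

namespace Pool.Agent.Results.MP_9624c8_gt.NotCovered

/-- `X = ∏_{n ≥ 2} C_n`, the factor with index `n` being the group of `(n + 2)`-th roots of unity
in `ℂ` (a finite, hence discrete, group). -/
abbrev X : Type := ∀ n : ℕ, rootsOfUnity (n + 2) ℂ

/-- Null-finite subsets of `X`. -/
def NullFinite (B : Set X) : Prop :=
  ∃ x : ℕ → X, Tendsto x atTop (𝓝 1) ∧ ∀ y : X, {k | y * x k ∈ B}.Finite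

theorem result (B : ℕ → Set X) (hB : ∀ k, @MeasurableSet X (borel X) (B k))
    (hN : ∀ k, NullFinite (B k)) : ¬ {y : X | ∀ n, y n ≠ 1} ⊆ ⋃ k, B k :=
  Pool.Agent.H26.NullFinite.not_covered (G := fun n => Additive (rootsOfUnity (n + 2) ℂ))
    (fun n => (Complex.card_rootsOfUnity (n + 2)).ge) B hB hN

end Pool.Agent.Results.MP_9624c8_gt.NotCovered
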